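import Pool.Agent.BOX.StmtsG

/-!
# Row EVR of squad BOX (problem MP_be01ff_an): the real part
-/

set_option autoImplicit false

namespace Pool.Agent.BOX.H62

open Pool.Agent.BOX

noncomputable section

/-- The phase factor. -/
theorem norm_ph (s : ℝ) : ‖Complex.exp (Complex.I * ((s : ℝ) : ℂ))‖ = 1 := by
  rw [mul_comm]
  exact Complex.norm_exp_ofReal_mul_I s

/-- Row EVR. -/
theorem evr : EvrStmt := by
  intro P Q _ _ θ F hF
  have hF' : Summable fun g : P × Q => ‖F (-g.1, g.2)‖ := by
    have h := (Equiv.prodCongr (Equiv.neg P) (Equiv.refl Q)).summable_iff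
      (f := fun g : P × Q => ‖F g‖)
    exact h.2 hF
  refine ⟨?_, ?_⟩
  · refine Summable.of_nonneg_of_le (fun _ => norm_nonneg _) (fun g => ?_)
      ((hF.add hF').div_const 2)
    unfold Vp
    rw [norm_div]
    have h2 : ‖(2 : ℂ)‖ = 2 := by simp
    rw [h2]
    apply div_le_div_of_nonneg_right _ (by norm_num)
    refine (norm_add_le _ _).trans (le_of_eq ?_)
    rw [RCLike.norm_conj]
  · intro t k
    have hk : Summable fun p : P => ‖F (p, k)‖ :=
      hF.comp_injective (i := fun p : P => (p, k)) (fun p q h => (Prod.mk.inj h).1)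
    have hs : Summable fun p : P => F (p, k) * Complex.exp (Complex.I * ((θ p * t : ℝ) : ℂ)) := by
      apply Summable.of_norm
      refine hk.congr (fun p => ?_)
      rw [norm_mul, norm_ph, mul_one]
    have hconj : (starRingEnd ℂ) (ev θ F t k) =
        ∑' p : P, (starRingEnd ℂ) (F (-p, k)) *
          Complex.exp (Complex.I * ((θ p * t : ℝ) : ℂ)) := by
      unfold ev
      rw [Complex.conj_tsum]
      rw [← (Equiv.neg P).tsum_eq (fun p : P => (starRingEnd ℂ)
        (F (p, k) * Complex.exp (Complex.I * ((θ p * t : ℝ) : ℂ))))]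
      apply tsum_congr
      intro p
      show (starRingEnd ℂ) (F (-p, k) * Complex.exp (Complex.I * ((θ (-p) * t : ℝ) : ℂ))) = _
      rw [map_mul, ← Complex.exp_conj, map_mul, Complex.conj_I, Complex.conj_ofReal, map_neg]
      congr 2
      push_cast
      ring
    have hs' : Summable fun p : P => (starRingEnd ℂ) (F (-p, k)) *
        Complex.exp (Complex.I * ((θ p * t : ℝ) : ℂ)) := by
      apply Summable.of_norm
      have hk' : Summable fun p : P => ‖F (-p, k)‖ := (Equiv.neg P).summable_iff.2 hk
      refine hk'.congr (fun p => ?_)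
      rw [norm_mul, norm_ph, mul_one, RCLike.norm_conj]
    rw [Complex.re_eq_add_conj, hconj]
    unfold ev
    rw [← hs.tsum_add hs', ← tsum_div_const]
    apply tsum_congr
    intro p
    unfold Vp
    ring

end

end Pool.Agent.BOX.H62
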