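import Pool.Agent.BOX.StmtsT

/-!
# Row GDT of squad BOX (problem MP_be01ff_an): stability of the class `Good2`
-/

set_option autoImplicit false

namespace Pool.Agent.BOX.H62

open Filter Topology
open Pool.Agent.BOX

noncomputable section

theorem bnd (ρ : ℝ) (hρ : 1 < ρ) (τ : ℕ) :
    ∃ C : ℝ, 0 < C ∧ ∀ n : ℕ, (1 + (n : ℝ)) ^ τ ≤ C * ρ ^ n := by
  have h := tendsto_pow_const_div_const_pow_of_one_lt τ hρ
  obtain ⟨M, hM⟩ := h.bddAbove_range
  have h0 : (0 : ℝ) < ρ := by linarith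
  have hM' : ∀ n : ℕ, (n : ℝ) ^ τ / ρ ^ n ≤ M := fun n => hM ⟨n, rfl⟩
  refine ⟨(|M| + 1) * ρ, by positivity, fun n => ?_⟩
  have h1 := hM' (n + 1)
  rw [div_le_iff₀ (pow_pos h0 _)] at h1
  push_cast at h1
  have h2 : M * ρ ^ (n + 1) ≤ (|M| + 1) * ρ ^ (n + 1) :=
    mul_le_mul_of_nonneg_right (by linarith [le_abs_self M]) (pow_pos h0 _).le
  calc (1 + (n : ℝ)) ^ τ = ((n : ℝ) + 1) ^ τ := by rw [add_comm]
    _ ≤ M * ρ ^ (n + 1) := h1
    _ ≤ (|M| + 1) * ρ ^ (n + 1) := h2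
    _ = (|M| + 1) * ρ * ρ ^ n := by ring

theorem nr2_add (g h : G2) : nr2 (g + h) ≤ nr2 g + nr2 h := by
  unfold nr2
  simp only [Prod.fst_add, Prod.snd_add, Pi.add_apply]
  omega

theorem nr2_neg (g : G2) : nr2 (-g.1, g.2) = nr2 g := by
  unfold nr2
  simp only [Prod.fst_neg, Prod.snd_neg, Int.natAbs_neg]

theorem par2_neg (g : G2) (h : Par2 (-g.1, g.2)) : Par2 g := by
  obtain ⟨h1, h2, h3⟩ := h
  simp only [Prod.fst_neg, Prod.snd_neg] at h1 h3
  refine ⟨?_, h2, ?_⟩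
  · rw [Int.odd_iff] at h1 ⊢
    omega
  · rw [Int.even_iff] at h3 ⊢
    omega

/-- Comparison of the weights. -/
theorem sw_mono {F : G2 → ℂ} {r r' : ℝ} (h0 : 0 ≤ r') (hle : r' ≤ r)
    (hF : Summable fun g => ‖F g‖ * r ^ nr2 g) : Summable fun g => ‖F g‖ * r' ^ nr2 g := by
  refine Summable.of_nonneg_of_le (fun g => ?_) (fun g => ?_) hF
  · positivity
  · exact mul_le_mul_of_nonneg_left (pow_le_pow_left₀ h0 hle _) (norm_nonneg _)

/-- Polynomial factors. -/
theorem sw_poly {F : G2 → ℂ} {r : ℝ} (hr : 1 < r) (hF : Summable fun g => ‖F g‖ * r ^ nr2 g)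
    (τ : ℕ) : ∃ r' : ℝ, 1 < r' ∧
      Summable fun g => ‖F g‖ * (1 + (nr2 g : ℝ)) ^ τ * r' ^ nr2 g := by
  have hr0 : 0 ≤ r := by linarith
  have hs1 : 1 < Real.sqrt r := by
    rw [Real.lt_sqrt zero_le_one]
    linarith
  have hss : Real.sqrt r * Real.sqrt r = r := Real.mul_self_sqrt hr0
  obtain ⟨C, hC, hb⟩ := bnd (Real.sqrt r) hs1 τ
  refine ⟨Real.sqrt r, hs1, ?_⟩
  refine Summable.of_nonneg_of_le (fun g => ?_) (fun g => ?_) (hF.mul_left C)
  · positivity
  · have h1 := hb (nr2 g)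
    have h2 : r ^ nr2 g = Real.sqrt r ^ nr2 g * Real.sqrt r ^ nr2 g := by
      rw [← mul_pow, hss]
    calc ‖F g‖ * (1 + (nr2 g : ℝ)) ^ τ * Real.sqrt r ^ nr2 g
        ≤ ‖F g‖ * (C * Real.sqrt r ^ nr2 g) * Real.sqrt r ^ nr2 g := by
          apply mul_le_mul_of_nonneg_right _ (by positivity)
          exact mul_le_mul_of_nonneg_left h1 (norm_nonneg _)
      _ = C * (‖F g‖ * r ^ nr2 g) := by
          rw [h2]
          ring

theorem vp_good {F : G2 → ℂ} (h : Good2 F) : Good2 (Vp F) := by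
  obtain ⟨⟨r, hr, hs⟩, hfl, hp⟩ := h
  have hr0 : 0 < r := by linarith
  refine ⟨⟨r, hr, ?_⟩, ?_, ?_⟩
  · have hs' : Summable fun g : G2 => ‖F (-g.1, g.2)‖ * r ^ nr2 g := by
      have h := (Equiv.prodCongr (Equiv.neg (ℤ × ℤ)) (Equiv.refl (Fin 2 → ℤ))).summable_iff
        (f := fun g : G2 => ‖F g‖ * r ^ nr2 g)
      refine (h.2 hs).congr (fun g => ?_)
      show ‖F (-g.1, g.2)‖ * r ^ nr2 (-g.1, g.2) = ‖F (-g.1, g.2)‖ * r ^ nr2 g
      rw [nr2_neg]
    refine Summable.of_nonneg_of_le (fun g => ?_) (fun g => ?_) ((hs.add hs').div_const 2)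
    · positivity
    · have h1 : ‖Vp F g‖ ≤ (‖F g‖ + ‖F (-g.1, g.2)‖) / 2 := by
        unfold Vp
        rw [norm_div]
        have h2 : ‖(2 : ℂ)‖ = 2 := by simp
        rw [h2]
        apply div_le_div_of_nonneg_right _ (by norm_num)
        refine (norm_add_le _ _).trans (le_of_eq ?_)
        rw [RCLike.norm_conj]
      have h3 := mul_le_mul_of_nonneg_right h1 (pow_pos hr0 (nr2 g)).le
      refine h3.trans (le_of_eq ?_)
      ring
  · intro p k i
    unfold Vp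
    rw [hfl p k i]
    have h1 := hfl (-p) k i
    show (-F (p, k) + (starRingEnd ℂ) (F (-p, flp i k))) / 2 =
      -((F (p, k) + (starRingEnd ℂ) (F (-p, k))) / 2)
    rw [h1, map_neg]
    ring
  · intro g hg
    by_cases h1 : F g = 0
    · by_cases h2 : F (-g.1, g.2) = 0
      · exfalso
        apply hg
        unfold Vp
        rw [h1, h2]
        simp
      · exact par2_neg g (hp _ h2)
    · exact hp _ h1

theorem t3_good (hA : T3aStmt) (hS : T3sStmt) {F G H : G2 → ℂ} (hF : Good2 F) (hG : Good2 G)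
    (hH : Good2 H) : Good2 (T3 F G H) := by
  obtain ⟨⟨r1, hr1, hs1⟩, hf1, hp1⟩ := hF
  obtain ⟨⟨r2, hr2, hs2⟩, hf2, hp2⟩ := hG
  obtain ⟨⟨r3, hr3, hs3⟩, hf3, hp3⟩ := hH
  obtain ⟨r, hr, ha, hb, hc⟩ : ∃ r : ℝ, 1 < r ∧ r ≤ r1 ∧ r ≤ r2 ∧ r ≤ r3 := by
    refine ⟨min r1 (min r2 r3), ?_, min_le_left _ _, (min_le_right _ _).trans (min_le_left _ _),
      (min_le_right _ _).trans (min_le_right _ _)⟩
    exact lt_min hr1 (lt_min hr2 hr3)
  have hr0 : 0 < r := by linarith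
  have t1 := sw_mono hr0.le ha hs1
  have t2 := sw_mono hr0.le hb hs2
  have t3 := sw_mono hr0.le hc hs3
  have hsum : ∀ {K : G2 → ℂ}, (Summable fun g => ‖K g‖ * r ^ nr2 g) → Summable fun g => ‖K g‖ := by
    intro K hK
    refine Summable.of_nonneg_of_le (fun _ => norm_nonneg _) (fun g => ?_) hK
    exact le_mul_of_one_le_right (norm_nonneg _) (one_le_pow₀ hr.le)
  have hW : Wt (fun g : G2 => r ^ nr2 g) := by
    refine ⟨fun g => one_le_pow₀ hr.le, fun g h => ?_⟩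
    show r ^ nr2 (g + h) ≤ r ^ nr2 g * r ^ nr2 h
    rw [← pow_add]
    exact pow_le_pow_right₀ hr.le (nr2_add g h)
  obtain ⟨-, hT, -⟩ := hA G2 ℂ (fun g => r ^ nr2 g) F G H hW t1 t2 t3
  refine ⟨⟨r, hr, hT⟩, ?_, ?_⟩
  · intro p k i
    obtain ⟨-, -, -, -, he⟩ := hS G2 ℂ F F G H (hsum t1) (hsum t1) (hsum t2) (hsum t3) (p, k)
    have h1 := he (AddEquiv.prodCongr (AddEquiv.refl (ℤ × ℤ)) (flp i))
    have e1 : (fun x : G2 => F ((AddEquiv.prodCongr (AddEquiv.refl (ℤ × ℤ)) (flp i)) x)) =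
        fun x => - F x := by
      funext x
      exact hf1 x.1 x.2 i
    have e2 : (fun x : G2 => G ((AddEquiv.prodCongr (AddEquiv.refl (ℤ × ℤ)) (flp i)) x)) =
        fun x => - G x := by
      funext x
      exact hf2 x.1 x.2 i
    have e3 : (fun x : G2 => H ((AddEquiv.prodCongr (AddEquiv.refl (ℤ × ℤ)) (flp i)) x)) =
        fun x => - H x := by
      funext x
      exact hf3 x.1 x.2 i
    rw [e1, e2, e3] at h1
    have h2 : T3 F G H (p, flp i k) =
        T3 F G H ((AddEquiv.prodCongr (AddEquiv.refl (ℤ × ℤ)) (flp i)) (p, k)) := rfl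
    rw [h2, ← h1]
    unfold T3
    rw [← tsum_neg]
    apply tsum_congr
    intro h
    ring
  · intro g hg
    have h1 : ∃ h : G2 × G2, F h.1 * G h.2 * H (g - h.1 - h.2) ≠ 0 := by
      by_contra hn
      push Not at hn
      apply hg
      unfold T3
      rw [tsum_congr hn, tsum_zero]
    obtain ⟨h, hh⟩ := h1
    have hH0 := right_ne_zero_of_mul hh
    have hFG := left_ne_zero_of_mul hh
    have hF0 := left_ne_zero_of_mul hFG
    have hG0 := right_ne_zero_of_mul hFG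
    obtain ⟨a1, a2, a3⟩ := hp1 _ hF0
    obtain ⟨b1, b2, b3⟩ := hp2 _ hG0
    obtain ⟨c1, c2, c3⟩ := hp3 _ hH0
    simp only [Prod.fst_sub, Prod.snd_sub, Pi.sub_apply] at c1 c2 c3
    refine ⟨?_, ?_, ?_⟩
    · rw [Int.odd_iff] at a1 b1 c1 ⊢
      omega
    · rw [Int.odd_iff] at a2 b2 c2 ⊢
      omega
    · rw [Int.even_iff] at a3 b3 c3 ⊢
      omega

theorem abs_flp (i : Fin 2) (k : Fin 2 → ℤ) (j : Fin 2) : |flp i k j| = |k j| := by
  show |if j = i then - k j else k j| = |k j|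
  split_ifs
  · exact abs_neg _
  · rfl

theorem R2_flp (p : ℤ × ℤ) (k : Fin 2 → ℤ) (i : Fin 2) : (p, flp i k) ∈ R2 ↔ (p, k) ∈ R2 := by
  unfold R2
  simp only [Set.mem_setOf_eq, abs_flp]

theorem frq_flp (l : Fin 2 → ℝ) (k : Fin 2 → ℤ) (i : Fin 2) : frq l (flp i k) = frq l k := by
  unfold frq
  congr 1
  apply Finset.sum_congr rfl
  intro j _
  show (Real.pi * ((if j = i then - k j else k j : ℤ) : ℝ) / l j) ^ 2 =
    (Real.pi * (k j : ℝ) / l j) ^ 2
  split_ifs
  · push_cast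
    ring
  · rfl

theorem snd_ne {F : G2 → ℂ} (hf : ∀ p k, ∀ i : Fin 2, F (p, flp i k) = - F (p, k)) (g : G2)
    (hg : F g ≠ 0) : g.2 1 ≠ 0 := by
  intro h0
  apply hg
  have h1 : flp 1 g.2 = g.2 := by
    funext j
    show (if j = 1 then - g.2 j else g.2 j) = g.2 j
    split_ifs with h
    · rw [h, h0, neg_zero]
    · rfl
  have h2 := hf g.1 g.2 1
  rw [h1] at h2
  have h3 : F (g.1, g.2) = 0 := by
    have h4 : (2 : ℂ) * F (g.1, g.2) = 0 := by linear_combination h2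
    simpa using h4
  exact h3

/-- Row GDT. -/
theorem gdt (hA : T3aStmt) (hS : T3sStmt) : GdtStmt := by
  intro l hl hD
  obtain ⟨c, hc, τ, hdiv⟩ := hD
  have hsum : ∀ F, Good2 F → Summable fun g => ‖F g‖ := by
    rintro F ⟨⟨r, hr, hs⟩, -, -⟩
    refine Summable.of_nonneg_of_le (fun _ => norm_nonneg _) (fun g => ?_) hs
    exact le_mul_of_one_le_right (norm_nonneg _) (one_le_pow₀ (le_of_lt hr))
  refine ⟨?_, ?_, ?_, ?_, hsum, ?_, ?_⟩
  · rintro F G ⟨⟨r1, hr1, hs1⟩, hf1, hp1⟩ ⟨⟨r2, hr2, hs2⟩, hf2, hp2⟩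
    have hr : 1 < min r1 r2 := lt_min hr1 hr2
    have hr0 : 0 < min r1 r2 := by linarith
    have t1 := sw_mono hr0.le (min_le_left r1 r2) hs1
    have t2 := sw_mono hr0.le (min_le_right r1 r2) hs2
    refine ⟨⟨min r1 r2, hr, ?_⟩, ?_, ?_⟩
    · refine Summable.of_nonneg_of_le (fun g => by positivity) (fun g => ?_) (t1.add t2)
      rw [← add_mul]
      exact mul_le_mul_of_nonneg_right (norm_add_le _ _) (pow_pos hr0 _).le
    · intro p k i
      show F (p, flp i k) + G (p, flp i k) = -(F (p, k) + G (p, k))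
      rw [hf1, hf2]
      ring
    · intro g hg
      by_cases h1 : F g = 0
      · by_cases h2 : G g = 0
        · exfalso
          apply hg
          show F g + G g = 0
          rw [h1, h2, add_zero]
        · exact hp2 _ h2
      · exact hp1 _ h1
  · rintro a F ⟨⟨r, hr, hs⟩, hf, hp⟩
    refine ⟨⟨r, hr, ?_⟩, ?_, ?_⟩
    · refine (hs.mul_left ‖(a : ℂ)‖).congr (fun g => ?_)
      rw [norm_mul]
      ring
    · intro p k i
      show (a : ℂ) * F (p, flp i k) = -((a : ℂ) * F (p, k))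
      rw [hf]
      ring
    · intro g hg
      exact hp g (right_ne_zero_of_mul hg)
  · intro F G H hF hG hH
    exact t3_good hA hS (vp_good hF) (vp_good hG) (vp_good hH)
  · rintro F ⟨⟨r, hr, hs⟩, hf, hp⟩
    obtain ⟨r', hr', hs'⟩ := sw_poly hr hs τ
    have hr0 : 0 < r' := by linarith
    refine ⟨⟨r', hr', ?_⟩, ?_, ?_⟩
    · refine Summable.of_nonneg_of_le (fun g => by positivity) (fun g => ?_) (hs'.mul_left c⁻¹)
      by_cases hg : g ∈ R2
      · rw [Set.indicator_of_notMem (by simpa using hg), norm_zero, zero_mul]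
        positivity
      · rw [Set.indicator_of_mem (by simpa using hg)]
        by_cases h0 : F g = 0
        · rw [h0, zero_div, norm_zero, zero_mul]
          positivity
        · have h1 := hdiv g (hp g h0) hg (snd_ne hf g h0)
          have hpos : 0 < c / (1 + (nr2 g : ℝ)) ^ τ := by positivity
          have hsp : 0 < |sg (th2 l) (frq l) g| := lt_of_lt_of_le hpos h1
          rw [norm_div, norm_mul, Complex.norm_I, one_mul, Complex.norm_real, Real.norm_eq_abs]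
          have h2 : 1 / |sg (th2 l) (frq l) g| ≤ c⁻¹ * (1 + (nr2 g : ℝ)) ^ τ := by
            rw [div_le_iff₀ hsp]
            have h3 := mul_le_mul_of_nonneg_left h1
              (show 0 ≤ c⁻¹ * (1 + (nr2 g : ℝ)) ^ τ by positivity)
            refine le_trans (le_of_eq ?_) h3
            field_simp
          calc ‖F g‖ / |sg (th2 l) (frq l) g| * r' ^ nr2 g
              = ‖F g‖ * (1 / |sg (th2 l) (frq l) g|) * r' ^ nr2 g := by ring
            _ ≤ ‖F g‖ * (c⁻¹ * (1 + (nr2 g : ℝ)) ^ τ) * r' ^ nr2 g := by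
                apply mul_le_mul_of_nonneg_right _ (by positivity)
                exact mul_le_mul_of_nonneg_left h2 (norm_nonneg _)
            _ = c⁻¹ * (‖F g‖ * (1 + (nr2 g : ℝ)) ^ τ * r' ^ nr2 g) := by ring
    · intro p k i
      have hsg : sg (th2 l) (frq l) (p, flp i k) = sg (th2 l) (frq l) (p, k) := by
        unfold sg
        show th2 l p - frq l (flp i k) = th2 l p - frq l k
        rw [frq_flp]
      by_cases hg : (p, k) ∈ R2
      · rw [Set.indicator_of_notMem (by simpa using (R2_flp p k i).2 hg),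
          Set.indicator_of_notMem (by simpa using hg), neg_zero]
      · rw [Set.indicator_of_mem (by simpa using fun h => hg ((R2_flp p k i).1 h)),
          Set.indicator_of_mem (by simpa using hg), hf, hsg]
        ring
    · intro g hg
      by_cases hgR : g ∈ R2
      · exfalso
        apply hg
        rw [Set.indicator_of_notMem (by simpa using hgR)]
      · rw [Set.indicator_of_mem (by simpa using hgR)] at hg
        apply hp g
        intro h0
        apply hg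
        rw [h0, zero_div]
  · rintro F ⟨-, hf, hp⟩ g hg hsg
    by_contra h0
    have h1 := hdiv g (hp g h0) hg (snd_ne hf g h0)
    rw [hsg, abs_zero] at h1
    have hpos : 0 < c / (1 + (nr2 g : ℝ)) ^ τ := by positivity
    linarith
  · rintro F ⟨⟨r, hr, hs⟩, -, -⟩
    obtain ⟨r', hr', hs'⟩ := sw_poly hr hs 3
    have hr0 : 0 < r' := by linarith
    obtain ⟨A, hAdef⟩ : ∃ A : ℝ, A = frq l ![1, 1] + frq l ![1, 2] := ⟨_, rfl⟩
    have hn1 : 0 ≤ frq l ![1, 1] := Real.sqrt_nonneg _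
    have hn2 : 0 ≤ frq l ![1, 2] := Real.sqrt_nonneg _
    have hA0 : 0 ≤ A := by rw [hAdef]; positivity
    unfold Sm
    refine Summable.of_nonneg_of_le (fun g => ?_) (fun g => ?_) (hs'.mul_left (1 + A))
    · unfold w2
      positivity
    · have hc0 : |(g.1.1 : ℝ)| + |(g.1.2 : ℝ)| + |(g.2 0 : ℝ)| + |(g.2 1 : ℝ)| = (nr2 g : ℝ) := by
        unfold nr2
        push_cast [Nat.cast_natAbs]
        rfl
      have a1 := abs_nonneg (g.1.1 : ℝ)
      have a2 := abs_nonneg (g.1.2 : ℝ)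
      have a3 := abs_nonneg (g.2 0 : ℝ)
      have a4 := abs_nonneg (g.2 1 : ℝ)
      have hn0 : (0 : ℝ) ≤ (nr2 g : ℝ) := Nat.cast_nonneg _
      have h1 : |th2 l g.1| ≤ A * (nr2 g : ℝ) := by
        show |(g.1.1 : ℝ) * frq l ![1, 1] + (g.1.2 : ℝ) * frq l ![1, 2]| ≤ A * (nr2 g : ℝ)
        refine (abs_add_le _ _).trans ?_
        rw [abs_mul, abs_mul, abs_of_nonneg hn1, abs_of_nonneg hn2, hAdef]
        have e1 : |(g.1.1 : ℝ)| * frq l ![1, 1] ≤ (nr2 g : ℝ) * frq l ![1, 1] :=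
          mul_le_mul_of_nonneg_right (by linarith) hn1
        have e2 : |(g.1.2 : ℝ)| * frq l ![1, 2] ≤ (nr2 g : ℝ) * frq l ![1, 2] :=
          mul_le_mul_of_nonneg_right (by linarith) hn2
        linarith
      have h2 : w2 g.2 ≤ (1 + (nr2 g : ℝ)) ^ 2 := by
        unfold w2
        rw [Fin.sum_univ_two]
        apply pow_le_pow_left₀ (by linarith)
        linarith
      have h3 : 1 + |th2 l g.1| ≤ (1 + A) * (1 + (nr2 g : ℝ)) := by nlinarith
      have hw0 : 0 ≤ w2 g.2 := by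
        unfold w2
        positivity
      have h4 : (1 + |th2 l g.1|) * w2 g.2 ≤
          (1 + A) * (1 + (nr2 g : ℝ)) * (1 + (nr2 g : ℝ)) ^ 2 :=
        mul_le_mul h3 h2 hw0 (by positivity)
      have h5 : (1 : ℝ) ≤ r' ^ nr2 g := one_le_pow₀ hr'.le
      calc ‖F g‖ * ((1 + |th2 l g.1|) * w2 g.2)
          ≤ ‖F g‖ * ((1 + A) * (1 + (nr2 g : ℝ)) * (1 + (nr2 g : ℝ)) ^ 2) :=
            mul_le_mul_of_nonneg_left h4 (norm_nonneg _)
        _ = (1 + A) * (‖F g‖ * (1 + (nr2 g : ℝ)) ^ 3) * 1 := by ring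
        _ ≤ (1 + A) * (‖F g‖ * (1 + (nr2 g : ℝ)) ^ 3) * r' ^ nr2 g :=
            mul_le_mul_of_nonneg_left h5 (by positivity)
        _ = (1 + A) * (‖F g‖ * (1 + (nr2 g : ℝ)) ^ 3 * r' ^ nr2 g) := by ring

end

end Pool.Agent.BOX.H62
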